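import Pool.Agent.W54.CL.Stm

set_option autoImplicit false

namespace Pool.Agent.W539.CL.Comp

open Pool.Agent.W54.CL Topology Filter Module

theorem main (hO : StOpen) : StComp := by
  intro E G _ _ _ _ _ _ ψ h L
  set V := maxSub (pre h L) with hV
  have hmemcl : ∀ g : G, g ∈ L.topologicalClosure ↔ g ∈ closure (L : Set G) := by
    intro g
    rw [← SetLike.mem_coe, Subgroup.topologicalClosure_coe]
  have hpre : ∀ x : E, x ∈ pre h L ↔ ψ x ∈ closure (L : Set G) := fun x => hmemcl _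
  have hclosed : IsClosed ((pre h L : AddSubgroup E) : Set E) := by
    have : ((pre h L : AddSubgroup E) : Set E) = ψ ⁻¹' closure (L : Set G) := by
      ext x
      exact hpre x
    rw [this]
    exact isClosed_closure.preimage h.cont
  obtain ⟨δ, hδ, hshort⟩ := hO E (pre h L) hclosed
  obtain ⟨s, hs0, hs⟩ := h.sec
  have hVpre : ∀ v ∈ V, v ∈ pre h L := by
    intro v hv
    have := hv 1
    rwa [one_smul] at this
  have hVcl : ∀ v ∈ V, ψ v ∈ closure (L : Set G) := fun v hv => (hpre v).1 (hVpre v hv)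
  -- the neighbourhoods
  have hnb : ∀ δ' : ℝ, 0 < δ' → ∀ᶠ g in 𝓝 (1 : G), ψ (s g) = g ∧ ‖s g‖ < δ' := by
    intro δ' hδ'
    have h1 : ∀ᶠ g in 𝓝 (1 : G), ‖s g‖ < δ' := by
      have := hs0 (Metric.ball_mem_nhds (0 : E) hδ')
      filter_upwards [this] with g hg
      simpa using hg
    exact hs.and h1
  have hkey : ∀ g : G, ψ (s g) = g → ‖s g‖ < δ → g ∈ closure (L : Set G) → s g ∈ V := by
    intro g h1 h2 h3
    refine hshort _ ?_ h2
    rw [hpre, h1]
    exact h3
  have hmul : ∀ a b : G, a ∈ closure (L : Set G) → b ∈ closure (L : Set G) →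
      a * b ∈ closure (L : Set G) := by
    intro a b ha hb
    rw [← hmemcl] at *
    exact mul_mem ha hb
  have hinv : ∀ a : G, a ∈ closure (L : Set G) → a⁻¹ ∈ closure (L : Set G) := by
    intro a ha
    rw [← hmemcl] at *
    exact inv_mem ha
  refine ⟨?_, ?_, ?_⟩
  · obtain ⟨N, hN, hNo, hN1⟩ := mem_nhds_iff.1 (hnb δ hδ)
    have hN' : ∀ g ∈ N, g ∈ closure (L : Set G) → g ∈ ψ '' (V : Set E) := by
      intro g hg hgL
      obtain ⟨h1, h2⟩ := hN hg
      exact ⟨s g, hkey g h1 h2 hgL, h1⟩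
    have himul : ∀ a b : G, a ∈ ψ '' (V : Set E) → b ∈ ψ '' (V : Set E) →
        a * b ∈ ψ '' (V : Set E) := by
      rintro _ _ ⟨x, hx, rfl⟩ ⟨y, hy, rfl⟩
      exact ⟨x + y, V.add_mem hx hy, h.map_add x y⟩
    have hiinv : ∀ a : G, a ∈ ψ '' (V : Set E) → a⁻¹ ∈ ψ '' (V : Set E) := by
      rintro _ ⟨x, hx, rfl⟩
      exact ⟨-x, V.neg_mem hx, h.map_neg x⟩
    have h1V : (1 : G) ∈ ψ '' (V : Set E) := ⟨0, V.zero_mem, h.map_zero⟩
    have h1L : (1 : G) ∈ closure (L : Set G) := subset_closure L.one_mem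
    apply Set.Subset.antisymm
    · set C := connectedComponentIn (closure (L : Set G)) 1 with hC
      have hCL : C ⊆ closure (L : Set G) := connectedComponentIn_subset _ _
      have hCp : IsPreconnected C := isPreconnected_connectedComponentIn
      have h1C : (1 : G) ∈ C := mem_connectedComponentIn h1L
      set O1 : Set G := {z | ∃ g ∈ ψ '' (V : Set E), g⁻¹ * z ∈ N} with hO1
      set O2 : Set G := {z | ∃ g ∈ closure (L : Set G), g ∉ ψ '' (V : Set E) ∧ g⁻¹ * z ∈ N} with hO2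
      have hopen : ∀ g : G, IsOpen {z | g⁻¹ * z ∈ N} := fun g =>
        hNo.preimage (continuous_const.mul continuous_id)
      have hO1o : IsOpen O1 := by
        have : O1 = ⋃ g ∈ ψ '' (V : Set E), {z | g⁻¹ * z ∈ N} := by
          ext z
          simp only [hO1, Set.mem_iUnion, Set.mem_setOf_eq, exists_prop]
        rw [this]
        exact isOpen_biUnion fun g _ => hopen g
      have hO2o : IsOpen O2 := by
        have : O2 = ⋃ g ∈ {g | g ∈ closure (L : Set G) ∧ g ∉ ψ '' (V : Set E)},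
            {z | g⁻¹ * z ∈ N} := by
          ext z
          simp only [hO2, Set.mem_iUnion, Set.mem_setOf_eq, exists_prop, and_assoc]
        rw [this]
        exact isOpen_biUnion fun g _ => hopen g
      have hz1 : ∀ z ∈ closure (L : Set G), z ∈ O1 → z ∈ ψ '' (V : Set E) := by
        rintro z hz ⟨g, hg, hgz⟩
        have hgL : g ∈ closure (L : Set G) := by
          obtain ⟨x, hx, rfl⟩ := hg
          exact hVcl x hx
        have h2 := hN' _ hgz (hmul _ _ (hinv _ hgL) hz)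
        have h3 := himul _ _ hg h2
        rwa [mul_inv_cancel_left] at h3
      have hz2 : ∀ z ∈ closure (L : Set G), z ∈ O2 → z ∉ ψ '' (V : Set E) := by
        rintro z hz ⟨g, hgL, hgV, hgz⟩ hzV
        have h2 := hN' _ hgz (hmul _ _ (hinv _ hgL) hz)
        apply hgV
        have h3 := himul _ _ hzV (hiinv _ h2)
        rwa [mul_inv_rev, inv_inv, ← mul_assoc, mul_inv_cancel, one_mul] at h3
      intro z hz
      by_contra hzV
      have hcov : C ⊆ O1 ∪ O2 := by
        intro y hy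
        by_cases hyV : y ∈ ψ '' (V : Set E)
        · exact Or.inl ⟨y, hyV, by rw [inv_mul_cancel]; exact hN1⟩
        · exact Or.inr ⟨y, hCL hy, hyV, by rw [inv_mul_cancel]; exact hN1⟩
      obtain ⟨y, hyC, hy1, hy2⟩ := hCp O1 O2 hO1o hO2o hcov
        ⟨1, h1C, 1, h1V, by rw [inv_mul_cancel]; exact hN1⟩
        ⟨z, hz, z, hCL hz, hzV, by rw [inv_mul_cancel]; exact hN1⟩
      exact hz2 y (hCL hyC) hy2 (hz1 y (hCL hyC) hy1)
    · refine IsPreconnected.subset_connectedComponentIn ?_ h1V ?_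
      · exact (V.convex.isPreconnected).image ψ h.cont.continuousOn
      · rintro _ ⟨x, hx, rfl⟩
        exact hVcl x hx
  · intro v hv δ' hδ'
    obtain ⟨N, hN, hNo, hN1⟩ := mem_nhds_iff.1 (hnb (min δ δ') (lt_min hδ hδ'))
    have hop : IsOpen {z | (ψ v)⁻¹ * z ∈ N} := hNo.preimage (continuous_const.mul continuous_id)
    obtain ⟨g, hgN, hgL⟩ := mem_closure_iff.1 (hVcl v hv) _ hop
      (by show (ψ v)⁻¹ * ψ v ∈ N; rw [inv_mul_cancel]; exact hN1)
    obtain ⟨h1, h2⟩ := hN hgN
    have hxL : (ψ v)⁻¹ * g ∈ closure (L : Set G) :=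
      hmul _ _ (hinv _ (hVcl v hv)) (subset_closure hgL)
    refine ⟨v + s ((ψ v)⁻¹ * g), V.add_mem hv (hkey _ h1 (lt_of_lt_of_le h2 (min_le_left _ _)) hxL),
      ?_, ?_⟩
    · rw [h.map_add, h1, mul_inv_cancel_left]
      exact hgL
    · rw [add_sub_cancel_left]
      exact lt_of_lt_of_le h2 (min_le_right _ _)
  · intro hbot
    refine ⟨_, hnb δ hδ, ?_⟩
    rintro g hgL ⟨h1, h2⟩
    have h3 := hkey g h1 h2 hgL
    rw [hbot, Submodule.mem_bot] at h3
    rw [← h1, h3, h.map_zero]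

end Pool.Agent.W539.CL.Comp
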